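import Pool.Agent.H21.Thin

namespace Pool.Agent.Results.MP_52f683_gt.Reduction

open Set Topology Filter Pool.Agent.H21.Thin

theorem result (S : Type) [TopologicalSpace S] [T2Space S] [SequentialSpace S] (hS : Thin S) :
    Finite S := by
  by_contra hi
  have : Infinite S := not_finite_iff_infinite.1 hi
  have : DiscreteTopology S := by
    refine discreteTopology_iff_isOpen_singleton.2 fun x => ?_
    rw [← isClosed_compl_iff]
    refine IsSeqClosed.isClosed fun u y hu hy e => ?_
    exact hS.no_seq (x := y) (fun n h => hu n (h.trans e)) hy
  exact hS.not_discrete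

end Pool.Agent.Results.MP_52f683_gt.Reduction
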